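import Pool.Agent.Y483.PI.Tr
import Pool.Agent.Y483.PW.Def
import Pool.Agent.Y477.IW.UKey

/-!
Transfers along pairs of cocycles for the functor `K₁(R[-])`, `R` an arbitrary ring, and for its
rationalization.
-/

set_option autoImplicit false

namespace Pool.Agent.R615.K1

open Pool.Agent.Y483 Pool.Agent.Y483.PW Pool.Agent.Y483.PI Pool.Agent.Y477.IW Pool.Agent.Y110.KW
  Pool.Agent.Y75.MQ CategoryTheory TensorProduct

universe v w

theorem hasPTI_eg (E : IFunctor.{v}) (R : Type) [Ring R] [StarRing R] : HasPTI (eg E R) := by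
  classical
  intro G A K _ _ κ
  by_cases hA : Nonempty A
  · obtain ⟨a₀⟩ := hA
    refine ⟨E.obj (DD (MonoidAlgebra R K) A), inferInstance,
      E.map (pHom R κ) - E.map (pHom R (pD κ)),
      E.map (corner (MonoidAlgebra R K) A a₀), E.corner_inj _ A a₀, ?_⟩
    intro G₀ _ j Y lc ld hY1 hY2 x
    exact pre E R κ a₀ j Y lc ld hY1 hY2 x
  · refine ⟨(eg E R).obj (GrpCat.of K), inferInstance, 0, AddMonoidHom.id _,
      Function.injective_id, ?_⟩
    intro G₀ _ j Y lc ld hY1 hY2 x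
    have : Y = ∅ := by
      rw [Finset.eq_empty_iff_forall_notMem]
      intro a _
      exact hA ⟨a⟩
    rw [this, Finset.sum_empty, map_zero]
    rfl

/-- Transfers pass to functors which embed. -/
theorem hasPTI_of_inj {L L' : GrpCat.{0} ⥤ AddCommGrpCat.{w}} (j : L ⟶ L')
    (hj : ∀ (G : Type) [Group G], Function.Injective (j.app (GrpCat.of G)).hom)
    (h : HasPTI L') : HasPTI L := by
  intro G A K _ _ κ
  obtain ⟨M, iM, Φ, ι, hι, hΦ⟩ := h G A K κ
  refine ⟨M, iM, Φ.comp (j.app (GrpCat.of G)).hom, ι.comp (j.app (GrpCat.of K)).hom,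
    hι.comp (hj K), ?_⟩
  intro G₀ _ i Y lc ld hY1 hY2 x
  have h1 := hΦ G₀ i Y lc ld hY1 hY2 ((j.app (GrpCat.of G₀)).hom x)
  have nat : ∀ {P Q : Type} [Group P] [Group Q] (f : P →* Q) (z : L.obj (GrpCat.of P)),
      (j.app (GrpCat.of Q)).hom (gm L f z) = gm L' f ((j.app (GrpCat.of P)).hom z) :=
    fun f z => nat_app j (GrpCat.ofHom f) z
  change Φ ((j.app (GrpCat.of G)).hom (gm L i x)) = ι ((j.app (GrpCat.of K)).hom _)
  rw [nat, h1]
  congr 1
  rw [map_sum]
  apply Finset.sum_congr rfl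
  intro a _
  rw [map_sub, nat, nat]

theorem hasPTI_kgr (R : Type) [Ring R] : HasPTI (kgr R) :=
  hasPTI_of_inj (dbl R) (fun G _ => km_inj G) (hasPTI_eg kFun (Sw R))

/-- The map of `ℚ ⊗ A` induced by a homomorphism. -/
noncomputable def ratMap {A B : Type} [AddCommGroup A] [AddCommGroup B] (f : A →+ B) :
    ℚ ⊗[ℤ] A →ₗ[ℚ] ℚ ⊗[ℤ] B := LinearMap.baseChange ℚ f.toIntLinearMap

theorem ratMap_tmul {A B : Type} [AddCommGroup A] [AddCommGroup B] (f : A →+ B) (q : ℚ) (x : A) :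
    ratMap f (q ⊗ₜ[ℤ] x) = q ⊗ₜ[ℤ] f x := LinearMap.baseChange_tmul ..

theorem ratMap_id (A : Type) [AddCommGroup A] : ratMap (AddMonoidHom.id A) = LinearMap.id := by
  apply LinearMap.ext
  intro x
  induction x using TensorProduct.induction_on with
  | zero => rw [map_zero, map_zero]
  | tmul t y => rw [ratMap_tmul]; rfl
  | add x y hx hy => rw [map_add, map_add, hx, hy]

theorem ratMap_comp {A B C : Type} [AddCommGroup A] [AddCommGroup B] [AddCommGroup C]
    (g : B →+ C) (f : A →+ B) : ratMap (g.comp f) = (ratMap g).comp (ratMap f) := by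
  apply LinearMap.ext
  intro x
  rw [LinearMap.comp_apply]
  induction x using TensorProduct.induction_on with
  | zero => rw [map_zero, map_zero, map_zero]
  | tmul t y => rw [ratMap_tmul, ratMap_tmul, ratMap_tmul]; rfl
  | add x y hx hy => rw [map_add, map_add, map_add, hx, hy]

/-- The functor `G ↦ ℚ ⊗ L(G)`. -/
noncomputable def rat (L : GrpCat.{0} ⥤ AddCommGrpCat.{0}) : GrpCat.{0} ⥤ ModuleCat.{0} ℚ where
  obj G := ModuleCat.of ℚ (ℚ ⊗[ℤ] (L.obj G))
  map f := ModuleCat.ofHom (ratMap (L.map f).hom)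
  map_id G := by
    have h0 : (L.map (𝟙 G)).hom = AddMonoidHom.id _ := by
      rw [L.map_id]
      rfl
    have h : ratMap (L.map (𝟙 G)).hom = LinearMap.id := by
      rw [h0]
      exact ratMap_id _
    exact congrArg ModuleCat.ofHom h
  map_comp f g := by
    have h0 : (L.map (f ≫ g)).hom = (L.map g).hom.comp (L.map f).hom := by
      rw [L.map_comp]
      rfl
    have h : ratMap (L.map (f ≫ g)).hom = (ratMap (L.map g).hom).comp (ratMap (L.map f).hom) := by
      rw [h0]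
      exact ratMap_comp _ _
    exact congrArg ModuleCat.ofHom h

theorem rat_key {A B M C : Type} [AddCommGroup A] [AddCommGroup B] [AddCommGroup M]
    [AddCommGroup C] {T : Type} (Y : Finset T) (Φ : B →+ M) (ι : C →+ M) (j : A →+ B)
    (lc ld : T → (A →+ C)) (h : ∀ x, Φ (j x) = ι (∑ a ∈ Y, (lc a x - ld a x)))
    (x : ℚ ⊗[ℤ] A) : ratMap Φ (ratMap j x) =
      ratMap ι (∑ a ∈ Y, (ratMap (lc a) x - ratMap (ld a) x)) := by
  induction x using TensorProduct.induction_on with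
  | zero => simp
  | tmul t y =>
    have h1 : ∑ a ∈ Y, (ratMap (lc a) (t ⊗ₜ[ℤ] y) - ratMap (ld a) (t ⊗ₜ[ℤ] y)) =
        t ⊗ₜ[ℤ] (∑ a ∈ Y, (lc a y - ld a y)) := by
      rw [TensorProduct.tmul_sum]
      apply Finset.sum_congr rfl
      intro a _
      rw [ratMap_tmul, ratMap_tmul, TensorProduct.tmul_sub]
    rw [ratMap_tmul, ratMap_tmul, h1, ratMap_tmul, h]
  | add x y hx hy =>
    rw [map_add, map_add, hx, hy, ← map_add, ← Finset.sum_add_distrib]
    congr 1
    apply Finset.sum_congr rfl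
    intro a _
    rw [map_add, map_add]
    abel

theorem hasPT_rat {L : GrpCat.{0} ⥤ AddCommGrpCat.{0}} (h : HasPTI L) : HasPT (rat L) := by
  intro G A K _ _ κ
  obtain ⟨M, iM, Φ, ι, hι, hΦ⟩ := h G A K κ
  have hinj : Function.Injective (ratMap ι) :=
    Module.Flat.lTensor_preserves_injective_linearMap (M := ℚ) ι.toIntLinearMap hι
  obtain ⟨r, hr⟩ := (ratMap ι).exists_leftInverse_of_injective (LinearMap.ker_eq_bot.mpr hinj)
  let F : ℚ ⊗[ℤ] (L.obj (GrpCat.of G)) →ₗ[ℚ] ℚ ⊗[ℤ] (L.obj (GrpCat.of K)) := r ∘ₗ ratMap Φ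
  refine ⟨F, ?_⟩
  intro G₀ _ j Y lc ld hY1 hY2
  have key : ∀ x : ℚ ⊗[ℤ] (L.obj (GrpCat.of G₀)), F (ratMap (gm L j) x) =
      ∑ a ∈ Y, (ratMap (gm L (lc a)) x - ratMap (gm L (ld a)) x) := by
    intro x
    change r (ratMap Φ (ratMap (gm L j) x)) = _
    rw [rat_key Y Φ ι (gm L j) (fun a => gm L (lc a)) (fun a => gm L (ld a))
      (fun y => hΦ G₀ j Y lc ld hY1 hY2 y) x]
    exact LinearMap.congr_fun hr _
  exact key

theorem hasTransfers_of_PT {E : GrpCat.{0} ⥤ ModuleCat.{0} ℚ} (hE : HasPT E) :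
    HasTransfers E := by
  intro G A K _ _ _ κ
  obtain ⟨Φ, hΦ⟩ := hE G A K (ipair κ)
  refine ⟨Φ, ?_⟩
  intro G₀ _ j hj Y hY x
  exact hΦ G₀ j Y (fun a => κ.label j hj a) (fun _ => 1) (fun a _ g => ⟨hj g a, rfl, rfl⟩)
    (fun a ha g => hY a ha g) x

end Pool.Agent.R615.K1
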